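import Pool.Agent.MP_094405_al.Main

/-!
# Finite bounded ortholattices embed into extended permutohedra

Every finite ortholattice `K` that, as a lattice, is a bounded homomorphic image of a free
lattice embeds, as an ortholattice, into `Reg(e)` for some finite strict ordering `e`.
-/

set_option autoImplicit false

namespace Pool.Agent.Results.MP_094405_al.OrthoEmbedding

open Pool.Agent.MP_094405_al

/-- Every finite ortholattice `(K, perp)` whose lattice is a bounded homomorphic image of a free
lattice has an ortholattice embedding into `Reg(e)` for some finite strict ordering `e`. -/
theorem result : ∀ (K : Type) [Lattice K] [BoundedOrder K] [Finite K] (perp : K → K),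
    IsOrtho perp → IsBoundedImageOfFree K →
      ∃ (E : Type) (_ : Finite E) (e : E → E → Prop), IsStrictOrdering e ∧
        ∃ f : K → E → E → Prop, IsEmbeddingIntoReg perp e f :=
  fun _ _ _ _ _ hp hK => main_embedding hp hK

end Pool.Agent.Results.MP_094405_al.OrthoEmbedding
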